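import Pool.Agent.L5helper98.ID.Defs

set_option autoImplicit false

open MeasureTheory ProbabilityTheory Filter Topology Set
open scoped ENNReal

namespace Pool.Agent.L5helper98.ID

/-- `e^{k log t}` is `|t|^k` up to the value at `0`. -/
lemma exp_log_pow (k : ℕ) (t : ℝ) (ht : t ≠ 0) : Real.exp ((k : ℝ) * Real.log t) = |t| ^ k := by
  rw [mul_comm, Real.exp_mul, ← Real.log_abs, Real.exp_log (abs_pos.2 ht), Real.rpow_natCast]

lemma exp_log_le (k : ℕ) (t : ℝ) : Real.exp ((k : ℝ) * Real.log t) ≤ |t| ^ k + 1 := by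
  by_cases ht : t = 0
  · subst ht
    simp only [Real.log_zero, mul_zero, Real.exp_zero]
    have : 0 ≤ |(0 : ℝ)| ^ k := by positivity
    linarith
  · rw [exp_log_pow k t ht]
    linarith

lemma le_exp_log (k : ℕ) (hk : k ≠ 0) (t : ℝ) : |t| ^ k ≤ Real.exp ((k : ℝ) * Real.log t) := by
  by_cases ht : t = 0
  · subst ht
    simp [hk]
  · rw [exp_log_pow k t ht]

lemma pow_integrable (τ : Measure ℝ) (k : ℕ) (b : ℝ)
    (h : ∫⁻ t, ENNReal.ofReal |t| ^ k ∂τ ≤ ENNReal.ofReal b) :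
    Integrable (fun t : ℝ => |t| ^ k) τ := by
  refine ⟨by fun_prop, ?_⟩
  rw [hasFiniteIntegral_iff_ofReal (ae_of_all _ fun t => by positivity)]
  refine lt_of_le_of_lt ?_ ENNReal.ofReal_lt_top (b := ENNReal.ofReal b)
  refine le_trans (le_of_eq ?_) h
  refine lintegral_congr fun t => ?_
  rw [ENNReal.ofReal_pow (abs_nonneg t)]

lemma pow_integral (τ : Measure ℝ) (k : ℕ) (h : Integrable (fun t : ℝ => |t| ^ k) τ) :
    ENNReal.ofReal (∫ t, |t| ^ k ∂τ) = ∫⁻ t, ENNReal.ofReal |t| ^ k ∂τ := by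
  rw [ofReal_integral_eq_lintegral_ofReal h (ae_of_all _ fun t => by positivity)]
  refine lintegral_congr fun t => ?_
  rw [ENNReal.ofReal_pow (abs_nonneg t)]

theorem tra2 : St_TRA2 := by
  intro τ hτ b1 b2 b3 b4 hb1 hb2 hb3 hb4 h1 h2 h3 h4
  have hlog : Measurable Real.log := Real.measurable_log
  have i4 : Integrable (fun t : ℝ => |t| ^ 4) τ := pow_integrable τ 4 b4 h4
  have i2 : Integrable (fun t : ℝ => |t| ^ 2) τ := pow_integrable τ 2 b2 h2
  have i3 : Integrable (fun t : ℝ => |t| ^ 3) τ := by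
    refine Integrable.mono' (i4.add (integrable_const (1 : ℝ))) (by fun_prop) ?_
    refine ae_of_all _ fun t => ?_
    rw [Real.norm_of_nonneg (by positivity)]
    have h0 : 0 ≤ |t| := abs_nonneg t
    simp only [Pi.add_apply]
    rcases le_total |t| 1 with h | h
    · have : |t| ^ 3 ≤ 1 := pow_le_one₀ h0 h
      have : 0 ≤ |t| ^ 4 := by positivity
      linarith
    · have : |t| ^ 3 ≤ |t| ^ 4 := pow_le_pow_right₀ h (by norm_num)
      linarith
  have i1 : Integrable (fun t : ℝ => |t| ^ 1) τ := by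
    refine Integrable.mono' (i2.add (integrable_const (1 : ℝ))) (by fun_prop) ?_
    refine ae_of_all _ fun t => ?_
    rw [Real.norm_of_nonneg (by positivity)]
    have h0 : 0 ≤ |t| := abs_nonneg t
    simp only [Pi.add_apply]
    rcases le_total |t| 1 with h | h
    · have : |t| ^ 1 ≤ 1 := pow_le_one₀ h0 h
      have : 0 ≤ |t| ^ 2 := by positivity
      linarith
    · have : |t| ^ 1 ≤ |t| ^ 2 := pow_le_pow_right₀ h (by norm_num)
      linarith
  have hint : ∀ k : ℕ, Integrable (fun t : ℝ => |t| ^ k) τ →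
      Integrable (fun t : ℝ => Real.exp ((k : ℝ) * Real.log t)) τ := by
    intro k hk
    refine Integrable.mono' (hk.add (integrable_const (1 : ℝ))) (by fun_prop) ?_
    refine ae_of_all _ fun t => ?_
    rw [Real.norm_of_nonneg (Real.exp_pos _).le]
    exact exp_log_le k t
  have hmap : ∀ k : ℕ, ∫ y, Real.exp ((k : ℝ) * y) ∂(τ.map Real.log) =
      ∫ t, Real.exp ((k : ℝ) * Real.log t) ∂τ := by
    intro k
    rw [integral_map hlog.aemeasurable (by fun_prop)]
  have hup : ∀ (k : ℕ) (b : ℝ), 0 ≤ b → Integrable (fun t : ℝ => |t| ^ k) τ →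
      ∫⁻ t, ENNReal.ofReal |t| ^ k ∂τ ≤ ENNReal.ofReal b →
      ∫ y, Real.exp ((k : ℝ) * y) ∂(τ.map Real.log) ≤ b + 1 := by
    intro k b hb hk h
    rw [hmap k]
    have h5 : ∫ t, Real.exp ((k : ℝ) * Real.log t) ∂τ ≤ ∫ t, (|t| ^ k + 1) ∂τ :=
      integral_mono (hint k hk) (hk.add (integrable_const (1 : ℝ))) fun t => exp_log_le k t
    have h6 : ∫ t, (|t| ^ k + 1) ∂τ = ∫ t, |t| ^ k ∂τ + 1 := by
      rw [integral_add hk (integrable_const (1 : ℝ))]
      simp
    have h7 : ∫ t, |t| ^ k ∂τ ≤ b := by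
      rw [← pow_integral τ k hk] at h
      exact (ENNReal.ofReal_le_ofReal_iff hb).1 h
    linarith
  have hlow : ∀ (k : ℕ) (b : ℝ), k ≠ 0 → Integrable (fun t : ℝ => |t| ^ k) τ →
      ENNReal.ofReal b ≤ ∫⁻ t, ENNReal.ofReal |t| ^ k ∂τ →
      b ≤ ∫ y, Real.exp ((k : ℝ) * y) ∂(τ.map Real.log) := by
    intro k b hk0 hk h
    rw [hmap k]
    have h5 : ∫ t, |t| ^ k ∂τ ≤ ∫ t, Real.exp ((k : ℝ) * Real.log t) ∂τ :=
      integral_mono hk (hint k hk) fun t => le_exp_log k hk0 t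
    have h7 : b ≤ ∫ t, |t| ^ k ∂τ := by
      rw [← pow_integral τ k hk] at h
      exact (ENNReal.ofReal_le_ofReal_iff (integral_nonneg fun t => by positivity)).1 h
    linarith
  have g1 := hlow 1 b1 one_ne_zero i1 (by simpa using h1)
  have g2 := hup 2 b2 hb2 i2 h2
  have g3 := hlow 3 b3 (by norm_num) i3 h3
  have g4 := hup 4 b4 hb4 i4 h4
  refine ⟨?_, by simpa using g4, by simpa using g2, by simpa using g3, by simpa using g1⟩
  have h8 := hint 4 i4
  have h9 : Integrable (fun y : ℝ => Real.exp (4 * y)) (τ.map Real.log) := by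
    rw [integrable_map_measure (by fun_prop) hlog.aemeasurable]
    simpa [Function.comp_def] using h8
  exact h9

end Pool.Agent.L5helper98.ID
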